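import Pool.Agent.H2.KM.Targets2
import Pool.Agent.H64.EV.Targets

/-!
# Super-exterior powers modulo numerical equivalence: definitions

The row files of the board kim_modules, with the sign `-ks` of an exchange in place of `ks`, and with
a supersymmetric form `OForm` in place of `Form`.
-/

set_option autoImplicit false

open Matrix Pool.Agent.H2.NL Pool.Agent.H2.KM Pool.Agent.H64.EV

namespace Pool.Agent.H2.EK

section words

variable {K : Type} [Field K] {I J : Type}

/-- the sign of an exchange, for the antisymmetrizer -/
def ka (K : Type) [Field K] (p q : Bool) : K := -ks K p q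

/-- antisymmetric tensors of order `n` -/
def Alt (o : I → Bool) (n : ℕ) (t : List I → K) : Prop :=
  ∀ j, j + 2 ≤ n → ∀ w : List I, w.length = n → sw o j t w = -t w

/-- the sign of moving the letter `a` over the word `u` -/
def sga (K : Type) [Field K] {I : Type} (o : I → Bool) (a : I) (u : List I) : K :=
  (u.map fun c => ka K (o a) (o c)).prod

/-- the letters of a word, each with the sign of moving it to the first place, and with the rest of
the word -/
def sela (K : Type) [Field K] {I : Type} (o : I → Bool) : List I → List (K × I × List I)
  | [] => []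
  | b :: v => (1, b, v) :: (sela K o v).map fun x => (ka K (o b) (o x.2.1) * x.1, x.2.1, b :: x.2.2)

/-- the matrix entry `(u, v)` of the sum of the permutations `σ`, which act with the sign of `σ` times
the Koszul sign, composed with `f ⊗ … ⊗ f`; `o` is the parity of the letters of `v` -/
def ap (o : J → Bool) (f : Matrix I J K) : List I → List J → K
  | [], [] => 1
  | [], _ :: _ => 0
  | a :: u, v => ((sela K o v).map fun x => x.1 * f a x.2.1 * ap o f u x.2.2).sum

/-- the same as a matrix -/
def Ap (o : J → Bool) (f : Matrix I J K) (n : ℕ) :
    Matrix (List.Vector I n) (List.Vector J n) K := Matrix.of fun u v => ap o f u.1 v.1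

/-- a tensor `x` with upper and lower places gives tensors on words: the pattern `s` says which
places are upper (`true`) -/
def Ga (o : I → Bool) : List Bool → (List I → List I → K) → List I → K
  | [], x, [] => x [] []
  | [], _, _ :: _ => 0
  | true :: s, x, a :: w => Ga o s (fun u v => x (a :: u) v) w
  | false :: s, x, a :: w => Ga o s (fun u v => sga K o a u * x u (a :: v)) w
  | _ :: _, _, [] => 0

/-- `x` is antisymmetric in the upper places, and in the lower places -/
structure GA (o : I → Bool) (x : List I → List I → K) : Prop where
  up : ∀ (j : ℕ) (u v : List I), j + 2 ≤ u.length → sw o j (fun u => x u v) u = -x u v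
  lo : ∀ (j : ℕ) (u v : List I), j + 2 ≤ v.length → sw o j (fun v => x u v) v = -x u v

variable [Fintype I] [DecidableEq I] (F : OForm K I)

/-- the contraction of an upper and a lower place -/
def opK (x : List I → List I → K) (u v : List I) : K :=
  ∑ e, F.c e * sga K F.o e u * x (e :: u) (F.st e :: v)

/-- the tensor with the components `Ga F.o σ x` -/
def Tt (x : List I → List I → K) (w : List (I × Bool)) : K :=
  F.lw 0 w * Ga F.o (w.map Prod.snd) x (w.map Prod.fst)

end words

/-! ### Basic lemmas -/

section basic

variable {K : Type} [Field K] {I : Type} (o : I → Bool)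

theorem ka_sq (p q : Bool) : ka K p q * ka K p q = 1 := by
  unfold ka; rw [neg_mul_neg, ks_sq]

theorem ka_comm (p q : Bool) : ka K p q = ka K q p := by
  unfold ka; rw [ks_comm]

theorem ks_mul_ka (p q : Bool) : ks K p q * ka K p q = -1 := by
  unfold ka; rw [mul_neg, ks_sq]

theorem ka_self (p : Bool) : ka K p p = -sg K p := by
  unfold ka ks sg; cases p <;> simp

theorem sga_perm (a : I) {u u' : List I} (h : u.Perm u') : sga K o a u = sga K o a u' :=
  (h.map _).prod_eq

theorem sga_cons (a c : I) (u : List I) :
    sga K o a (c :: u) = ka K (o a) (o c) * sga K o a u := by simp [sga]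

theorem sga_nil (a : I) : sga K o a [] = 1 := rfl

theorem sga_sq (a : I) : ∀ u : List I, sga K o a u * sga K o a u = 1
  | [] => by simp [sga]
  | c :: u => by
    have h := sga_sq a u
    have h' := ka_sq (K := K) (o a) (o c)
    rw [sga_cons]
    calc _ = (ka K (o a) (o c) * ka K (o a) (o c)) * (sga K o a u * sga K o a u) := by ring
      _ = 1 := by rw [h, h', one_mul]

end basic

end Pool.Agent.H2.EK

namespace Pool.Agent.H64.CC.Weil

open Pool.Agent.H2.NL Pool.Agent.H2.EK

variable {K : Type} [Field K] [CharZero K] {W : Weil K}

/-- the endomorphism `∑ sgn(σ) σ (f ⊗ … ⊗ f)` of `H(T ^ n) = H(T) ^ (⊗ n)`, the sum over all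
permutations `σ` of the `n` factors, which act with Koszul signs: `n!` times the projector on the
super-exterior power `Λ ^ n (f H(T))`, if `f` is a projector -/
def PowerData.altPow {m : ℕ} {T : W.Var m} (P : W.PowerData T) (f : W.Hom T T) (n : ℕ) :
    W.Hom (P.pow n) (P.pow n) :=
  Matrix.of fun a b => Pool.Agent.H2.EK.ap (W.par T) f (P.word n a) (P.word n b)

end Pool.Agent.H64.CC.Weil
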