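import Pool.Agent.H2.EK.Defs

/-!
# Targets
-/

set_option autoImplicit false

open Matrix Pool.Agent.H2.NL Pool.Agent.H64.CC Pool.Agent.H2.KM Pool.Agent.H64.EV

namespace Pool.Agent.H2.EK

/-! ### Tensors with upper and lower places -/

/-- GSA: an exchange changes the pattern. -/
def T_GSA : Prop := ∀ (K : Type) [Field K] (I : Type) (o : I → Bool) (x : List I → List I → K),
  GA o x → ∀ (s : List Bool) (j : ℕ), j + 2 ≤ s.length → ∀ w : List I,
  sw o j (Ga o s x) w = -Ga o (ex j s) x w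

/-- GCA: the contraction of the first two places. -/
def T_GCA : Prop := ∀ (K : Type) [Field K] (I : Type) [Fintype I] [DecidableEq I] (F : OForm K I)
  (x : List I → List I → K) (s : List Bool) (w : List I),
  con F.η 0 (Ga F.o (true :: false :: s) x) w = Ga F.o s (opK F x) w ∧
  con F.η 0 (Ga F.o (false :: true :: s) x) w = -Ga F.o s (opK F x) w

/-- BSA: the contraction preserves the antisymmetry. -/
def T_BSA : Prop := ∀ (K : Type) [Field K] (I : Type) [Fintype I] [DecidableEq I] (F : OForm K I)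
  (x : List I → List I → K), GA F.o x → GA F.o (opK F x)

/-- MEA: classes. -/
def T_MEA : Prop := ∀ (K : Type) [Field K] [CharZero K] (I : Type) [Fintype I] [DecidableEq I]
  (o : I → Bool) (η ω : Matrix I I K) (A : ℕ → Submodule ℚ (List I → K)), Calc o η ω A →
  ∀ x : List I → List I → K, GA o x → ∀ (k : ℕ) (s s' : List Bool), s.Perm s' →
  s.length = 2 * k → Ga o s x ∈ A k → Ga o s' x ∈ A k

/-- SYA: the antisymmetrizer. -/
def T_SYA : Prop := ∀ (K : Type) [Field K] (I : Type) [Fintype I] [DecidableEq I] (o : I → Bool)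
  (n : ℕ), ∃ L : List (List ℕ), [] ∈ L ∧ (∀ js ∈ L, ∀ j ∈ js, j + 2 ≤ n) ∧
  ∀ t : List I → K, Alt o n (fun w => (L.map fun js => (-1) ^ js.length * sws o js t w).sum)

/-! ### The antisymmetrizer as a matrix -/

/-- SEA: selections. -/
def T_SEA : Prop := ∀ (K : Type) [Field K] (I : Type) [Fintype I] (o : I → Bool),
  (∀ w : List I, (sela K o w).length = w.length ∧
    ∀ x ∈ sela K o w, x.1 * x.1 = 1 ∧ (x.2.1 :: x.2.2).Perm w) ∧
  (∀ (n : ℕ) (h : List I → K), Alt o n h → ∀ w : List I, w.length = n → ∀ x ∈ sela K o w,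
    h w = x.1 * h (x.2.1 :: x.2.2)) ∧
  (∀ (n : ℕ) (φ : I → List I → K),
    ∑ w : List.Vector I (n + 1), ((sela K o w.1).map fun x => φ x.2.1 x.2.2).sum =
      (n + 1 : K) * ∑ a, ∑ w : List.Vector I n, φ a w.1)

/-- SYB: `ap o f u v` is antisymmetric in `v`. -/
def T_SYB : Prop := ∀ (K : Type) [Field K] (I J : Type) (o : J → Bool) (f : Matrix I J K)
  (u : List I) (j : ℕ) (v : List J), j + 2 ≤ v.length →
  sw o j (fun v => ap o f u v) v = -ap o f u v

/-- SYC: `ap o f u v` is antisymmetric in `u`. -/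
def T_SYC : Prop := ∀ (K : Type) [Field K] (I J : Type) (o : J → Bool) (o' : I → Bool)
  (f : Matrix I J K), (∀ a b, f a b ≠ 0 → o' a = o b) →
  ∀ (v : List J) (j : ℕ) (u : List I), j + 2 ≤ u.length →
  sw o' j (fun u => ap o f u v) u = -ap o f u v

/-- APH: the antisymmetrizer of an antisymmetric tensor. -/
def T_APH : Prop := ∀ (K : Type) [Field K] (I : Type) [Fintype I] [DecidableEq I] (o : I → Bool)
  (n : ℕ) (h : List I → K), Alt o n h → ∀ u : List I, u.length = n →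
  ∑ w : List.Vector I n, ap o (1 : Matrix I I K) u w.1 * h w.1 = (n.factorial : K) * h u

/-- APZ: the antisymmetrizer is the operator of a class. -/
def T_APZ : Prop := ∀ (K : Type) [Field K] [CharZero K] (I : Type) [Fintype I] [DecidableEq I]
  (o : I → Bool) (η ω : Matrix I I K) (A : ℕ → Submodule ℚ (List I → K)), Calc o η ω A →
  η * ω = 1 → ω * η = 1 → (∀ a b, η a b ≠ 0 → o a = o b) → ∀ n : ℕ,
  Ap o (1 : Matrix I I K) n * Ap o (1 : Matrix I I K) n =
    (n.factorial : K) • Ap o (1 : Matrix I I K) n ∧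
  (∀ j : ℕ, j + 2 ≤ n → Px K o n j * Ap o (1 : Matrix I I K) n = -Ap o (1 : Matrix I I K) n ∧
    Ap o (1 : Matrix I I K) n * Px K o n j = -Ap o (1 : Matrix I I K) n) ∧
  ∃ z ∈ A n, op η n z = Ap o 1 n

/-- BSZ: an operator which changes its sign under exchanges on both sides. -/
def T_BSZ : Prop := ∀ (K : Type) [Field K] [CharZero K] (I : Type) [Fintype I] [DecidableEq I]
  (F : OForm K I) (A : ℕ → Submodule ℚ (List I → K)), Calc F.o F.η F.ω A → ∀ n : ℕ, ∀ t ∈ A n,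
  (∀ j, j + 2 ≤ n → Px K F.o n j * op F.η n t = -op F.η n t ∧
    op F.η n t * Px K F.o n j = -op F.η n t) →
  ∃ x : List I → List I → K, GA F.o x ∧
    (∀ u v : List I, u.length = n → v.length = n → t (u ++ v) = x u v) ∧
    ∀ s : List Bool, s.length = 2 * n → Ga F.o s x ∈ A n

/-- TRA: the supertrace is the iterated mixed contraction. -/
def T_TRA : Prop := ∀ (K : Type) [Field K] (I : Type) [Fintype I] [DecidableEq I] (F : OForm K I)
  (n : ℕ) (t : List I → K) (x : List I → List I → K), GA F.o x →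
  (∀ u v : List I, u.length = n → v.length = n → t (u ++ v) = x u v) →
  ∑ u : List.Vector I n, sgw K F.o u.1 * op F.η n t u u = (opK F)^[n] x [] []

/-- TTX: the tensor on the product with the plane. -/
def T_TTX : Prop := ∀ (K : Type) [Field K] (I : Type) [Fintype I] [DecidableEq I] (F : OForm K I)
  (x : List I → List I → K),
  (∀ (σ : List Bool) (w : List I), σ.length = w.length →
    F.cmp (Tt F x) σ w = Ga F.o σ x w) ∧
  (GA F.o x → ∀ n : ℕ, Symm F.tl.o n (Tt F x)) ∧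
  (∀ w, con F.tl.η 0 (Tt F x) w = -2 * Tt F (opK F x) w) ∧
  ∀ l : ℕ, itc F.tl l (Tt F x) = (-2) ^ l * (opK F)^[l] x [] []

/-- KIA: the antisymmetrizer is numerically trivial. -/
def T_KIA : Prop := ∀ (K : Type) [Field K] [CharZero K] (I : Type) [Fintype I] [DecidableEq I]
  (F : OForm K I) (A : ℕ → Submodule ℚ (List I → K)), Calc F.o F.η F.ω A → ∀ l : ℕ,
  (∀ t ∈ F.TA A l, Symm F.tl.o (2 * l) t → itc F.tl l t = 0) → ∀ y ∈ A l,
  ∑ u : List.Vector I l, sgw K F.o u.1 *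
    (op F.η l y * Ap F.o (1 : Matrix I I K) l) u u = 0

/-- APJ: functoriality. -/
def T_APJ : Prop := ∀ (K : Type) [Field K] (I J M : Type) [Fintype I] [DecidableEq I] [Fintype J]
  [DecidableEq J] [Fintype M] [DecidableEq M] (n : ℕ),
  (∀ (o : M → Bool) (j : Matrix I J K) (g : Matrix J M K),
    Jm j n * Ap o g n = Ap o (j * g) n) ∧
  (∀ (o' : J → Bool) (o : M → Bool) (g : Matrix I J K) (i : Matrix J M K),
    (∀ b a, i b a ≠ 0 → o' b = o a) → Ap o' g n * Jm i n = Ap o (g * i) n)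

/-- APT: the supertrace of the antisymmetrizer. -/
def T_APT : Prop := ∀ (K : Type) [Field K] (I : Type) [Fintype I] [DecidableEq I] (o : I → Bool)
  (n : ℕ), ∑ u : List.Vector I n, sgw K o u.1 * ap o (1 : Matrix I I K) u.1 u.1 =
    ∏ k ∈ Finset.range n, ((∑ a, sg K (o a)) - (k : K))

/-- IDA: the antisymmetrizer of a projector is a projector, up to the factor `n!`. -/
def T_IDA : Prop := ∀ (K : Type) [Field K] (I : Type) [Fintype I] [DecidableEq I] (o : I → Bool)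
  (f : Matrix I I K), (∀ a b, f a b ≠ 0 → o a = o b) → f * f = f → ∀ n : ℕ,
  Ap o f n * Ap o f n = (n.factorial : K) • Ap o f n

/-! ### The Weil cohomology -/

/-- APA: the powers of a projector, antisymmetrized, are algebraic. -/
def T_APA : Prop := ∀ (K : Type) [Field K] [CharZero K] (W : Weil K), W.Theory →
  ∀ (m : ℕ) (T : W.Var m) (P : W.Powers T), ∀ f ∈ W.cyc T T 0, ∀ n : ℕ,
  P.altPow f n ∈ W.cyc (P.pow n) (P.pow n) 0

/-- NTA: from the system to the powers of `T`. -/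
def T_NTA : Prop := ∀ (K : Type) [Field K] [CharZero K] (W : Weil K), W.Theory →
  ∀ (m : ℕ) (T : W.Var m) (P : W.Powers T) (ρ : W.Hom T T), ρ ∈ W.cyc T T 0 → ρ * ρ = ρ →
  ∀ (U : Submodule K (W.H T)) (n n' : ℕ) (D : OAdapt (W.deg T) P.form ρ U n n') (N : ℕ),
  (∀ y ∈ pull D.j P.toPowerData.classes N, ∑ u : List.Vector (Fin n ⊕ Fin n') N,
    sgw K D.F.o u.1 * (op D.F.η N y *
      Ap D.F.o (1 : Matrix (Fin n ⊕ Fin n') (Fin n ⊕ Fin n') K) N) u u = 0) →
  W.NumTrivial (P.pow N) (P.altPow ρ N)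

/-- NTB: the lower powers are not numerically trivial. -/
def T_NTB : Prop := ∀ (K : Type) [Field K] [CharZero K] (W : Weil K), W.Theory →
  ∀ (m : ℕ) (T : W.Var m) (P : W.Powers T) (ρ : W.Hom T T), ρ ∈ W.cyc T T 0 → ρ * ρ = ρ →
  ∀ (U : Submodule K (W.H T)) (n n' : ℕ) (D : OAdapt (W.deg T) P.form ρ U n n'),
  W.str ρ = D.F.sd ∧ ∀ N b : ℕ, D.F.sd = (b : K) → N ≤ b →
    ¬ W.NumTrivial (P.pow N) (P.altPow ρ N)

/-- CPA: the sign conjecture in terms of the ranks. -/
def T_CPA : Prop := ∀ (K : Type) [Field K] [CharZero K] (W : Weil K), W.Theory →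
  ∀ (V : W.Var 0) (L : W.Hom V V), L ∈ W.Lef V → ∀ (r m : ℕ) (T : W.Var m)
  (S : W.Orthogonal V L r T), ∀ ε ∈ W.cyc T T 0, ε * ε = ε →
  (∀ u, W.Vanishing S.toGenericIntersection u → W.ap ε u = 0) →
  (∀ f ∈ W.cyc T T 0, (∀ u, W.Vanishing S.toGenericIntersection u → W.ap f u = 0) →
    W.str (f * (1 - ε)) = 0) →
  ∀ b : ℕ, W.str (1 - ε) = (b : K) → (W.Cplus T ↔ (1 - ε).rank = b)

/-- CQA: the sign conjecture is the vanishing of one class. -/
def T_CQA : Prop := ∀ (K : Type) [Field K] [CharZero K] (W : Weil K), W.Theory →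
  ∀ (V : W.Var 0) (L : W.Hom V V), L ∈ W.Lef V → ∀ (r m : ℕ) (T : W.Var m)
  (S : W.Orthogonal V L r T), ∀ ε ∈ W.cyc T T 0, ε * ε = ε →
  (∀ u, W.Vanishing S.toGenericIntersection u → W.ap ε u = 0) →
  (∀ f ∈ W.cyc T T 0, (∀ u, W.Vanishing S.toGenericIntersection u → W.ap f u = 0) →
    W.str (f * (1 - ε)) = 0) →
  ∀ n : ℕ, W.NumTrivial (S.powers.pow n) (S.powers.altPow (1 - ε) n) →
  (W.Cplus T ↔ S.powers.altPow (1 - ε) n = 0)

/-- THA: the numerical motive of `T` is finite-dimensional. -/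
def T_THA : Prop := ∀ (K : Type) [Field K] [CharZero K] (W : Weil K), W.Theory →
  ∀ (V : W.Var 0) (L : W.Hom V V), L ∈ W.Lef V → ∀ (r m : ℕ) (T : W.Var m)
  (S : W.Orthogonal V L r T),
  ∃ ε ∈ W.cyc T T 0, (∃ c ∈ W.cyc V V (-(r : ℤ)), ε = W.comp (W.comp S.up c) S.down) ∧
    ε * ε = ε ∧ εᵀ * S.powers.form = S.powers.form * ε ∧
    (∀ u, W.Vanishing S.toGenericIntersection u → W.ap ε u = 0) ∧
    (∀ f ∈ W.cyc T T 0, (∀ u, W.Vanishing S.toGenericIntersection u → W.ap f u = 0) →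
      W.str (f * (1 - ε)) = 0) ∧
    (∀ n : ℕ, S.powers.altPow (1 - ε) n ∈ W.cyc (S.powers.pow n) (S.powers.pow n) 0) ∧
    ∃ b : ℕ, 1 ≤ b ∧ W.str (1 - ε) = (b : K) ∧
      W.NumTrivial (S.powers.pow (b + 1)) (S.powers.altPow (1 - ε) (b + 1)) ∧
      (∀ n ≤ b, ¬ W.NumTrivial (S.powers.pow n) (S.powers.altPow (1 - ε) n)) ∧
      (W.Cplus T ↔ (1 - ε).rank = b)

end Pool.Agent.H2.EK
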